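import Pool.Agent.MTR.XFI
import Pool.Agent.MTC.A.B0
import Pool.Agent.MTC.A.B1
import Pool.Agent.MTC.A.B2
import Pool.Agent.MTC.A.B3
import Pool.Agent.MTC.A.B4
import Pool.Agent.MTC.A.B5
import Pool.Agent.MTC.A.B6
import Pool.Agent.MTC.A.B7
import Pool.Agent.MTC.A.B8
import Pool.Agent.MTC.A.B9
import Pool.Agent.MTC.A.B10
import Pool.Agent.MTC.A.B11
import Pool.Agent.MTC.A.B12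
import Pool.Agent.MTC.A.B13
import Pool.Agent.MTC.A.B14
import Pool.Agent.MTC.A.B15
import Pool.Agent.MTC.A.S
set_option autoImplicit false
set_option maxRecDepth 100000
open MeasureTheory Set Metric Pool.Agent.MEIS Pool.Agent.MSQ Pool.Agent.MGE Pool.Agent.MGF Pool.Agent.PKD Pool.Agent.MTR
namespace Pool.Agent.MTC.A
theorem ev : (evenL F.f0 && evenL F.f1 && oddL F.f2 && evenL F.f3 && evenL F.f4 && evenL F.f5 && oddL F.f6) = true := by decide +kernel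
/-- boxes -/
def L0 : List Bn := [⟨1, 2, 1, 2, 4⟩, ⟨1, 2, 0, 1, 4⟩, ⟨2, 3, 0, 1, 4⟩, ⟨2, 3, 2, 3, 4⟩, ⟨2, 3, 1, 2, 4⟩, ⟨2, 3, 3, 4, 4⟩, ⟨3, 4, 6, 7, 8⟩, ⟨2, 3, 6, 7, 8⟩, ⟨2, 3, 7, 8, 8⟩, ⟨3, 4, 7, 8, 8⟩, ⟨2, 3, 4, 5, 8⟩, ⟨2, 3, 5, 6, 8⟩, ⟨3, 4, 5, 6, 8⟩, ⟨3, 4, 4, 5, 8⟩, ⟨6, 7, 1, 2, 8⟩, ⟨6, 7, 0, 1, 8⟩]
theorem hL0 : ∀ b ∈ L0, BoxH 3 1000 g b := by
  simp only [L0, List.forall_mem_cons, List.not_mem_nil, false_imp_iff, implies_true, and_true]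
  exact ⟨⟨b0, rfl, h0⟩,
    ⟨b1, rfl, h1⟩,
    ⟨b2, rfl, h2⟩,
    ⟨b3, rfl, h3⟩,
    ⟨b4, rfl, h4⟩,
    ⟨b5, rfl, h5⟩,
    ⟨b6, rfl, h6⟩,
    ⟨b7, rfl, h7⟩,
    ⟨b8, rfl, h8⟩,
    ⟨b9, rfl, h9⟩,
    ⟨b10, rfl, h10⟩,
    ⟨b11, rfl, h11⟩,
    ⟨b12, rfl, h12⟩,
    ⟨b13, rfl, h13⟩,
    ⟨b14, rfl, h14⟩,
    ⟨b15, rfl, h15⟩⟩
/-- boxes -/
def L1 : List Bn := [⟨7, 8, 0, 1, 8⟩, ⟨7, 8, 1, 2, 8⟩, ⟨6, 7, 3, 4, 8⟩, ⟨6, 7, 2, 3, 8⟩, ⟨7, 8, 2, 3, 8⟩, ⟨7, 8, 3, 4, 8⟩, ⟨6, 7, 5, 6, 8⟩, ⟨6, 7, 4, 5, 8⟩, ⟨7, 8, 4, 5, 8⟩, ⟨6, 7, 6, 7, 8⟩, ⟨6, 7, 7, 8, 8⟩, ⟨7, 8, 6, 7, 8⟩, ⟨7, 8, 7, 8, 8⟩, ⟨3, 4, 2, 3, 16⟩, ⟨3, 4, 3, 4, 16⟩, ⟨2, 3, 2, 3, 16⟩]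
theorem hL1 : ∀ b ∈ L1, BoxH 3 1000 g b := by
  simp only [L1, List.forall_mem_cons, List.not_mem_nil, false_imp_iff, implies_true, and_true]
  exact ⟨⟨b16, rfl, h16⟩,
    ⟨b17, rfl, h17⟩,
    ⟨b18, rfl, h18⟩,
    ⟨b19, rfl, h19⟩,
    ⟨b20, rfl, h20⟩,
    ⟨b21, rfl, h21⟩,
    ⟨b22, rfl, h22⟩,
    ⟨b23, rfl, h23⟩,
    ⟨b24, rfl, h24⟩,
    ⟨b25, rfl, h25⟩,
    ⟨b26, rfl, h26⟩,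
    ⟨b27, rfl, h27⟩,
    ⟨b28, rfl, h28⟩,
    ⟨b29, rfl, h29⟩,
    ⟨b30, rfl, h30⟩,
    ⟨b31, rfl, h31⟩⟩
/-- boxes -/
def L2 : List Bn := [⟨0, 1, 0, 1, 16⟩, ⟨0, 1, 1, 2, 16⟩, ⟨0, 1, 2, 3, 16⟩, ⟨0, 1, 3, 4, 16⟩, ⟨3, 4, 0, 1, 16⟩, ⟨3, 4, 1, 2, 16⟩, ⟨0, 1, 4, 5, 16⟩, ⟨0, 1, 5, 6, 16⟩, ⟨3, 4, 6, 7, 16⟩, ⟨3, 4, 7, 8, 16⟩, ⟨0, 1, 6, 7, 16⟩, ⟨0, 1, 7, 8, 16⟩, ⟨3, 4, 4, 5, 16⟩, ⟨3, 4, 5, 6, 16⟩, ⟨3, 4, 10, 11, 16⟩, ⟨3, 4, 11, 12, 16⟩]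
theorem hL2 : ∀ b ∈ L2, BoxH 3 1000 g b := by
  simp only [L2, List.forall_mem_cons, List.not_mem_nil, false_imp_iff, implies_true, and_true]
  exact ⟨⟨b32, rfl, h32⟩,
    ⟨b33, rfl, h33⟩,
    ⟨b34, rfl, h34⟩,
    ⟨b35, rfl, h35⟩,
    ⟨b36, rfl, h36⟩,
    ⟨b37, rfl, h37⟩,
    ⟨b38, rfl, h38⟩,
    ⟨b39, rfl, h39⟩,
    ⟨b40, rfl, h40⟩,
    ⟨b41, rfl, h41⟩,
    ⟨b42, rfl, h42⟩,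
    ⟨b43, rfl, h43⟩,
    ⟨b44, rfl, h44⟩,
    ⟨b45, rfl, h45⟩,
    ⟨b46, rfl, h46⟩,
    ⟨b47, rfl, h47⟩⟩
/-- boxes -/
def L3 : List Bn := [⟨1, 2, 11, 12, 16⟩, ⟨1, 2, 10, 11, 16⟩, ⟨0, 1, 10, 11, 16⟩, ⟨0, 1, 11, 12, 16⟩, ⟨0, 1, 9, 10, 16⟩, ⟨0, 1, 8, 9, 16⟩, ⟨3, 4, 9, 10, 16⟩, ⟨3, 4, 8, 9, 16⟩, ⟨1, 2, 14, 15, 16⟩, ⟨1, 2, 15, 16, 16⟩, ⟨0, 1, 14, 15, 16⟩, ⟨0, 1, 15, 16, 16⟩, ⟨3, 4, 12, 13, 16⟩, ⟨3, 4, 13, 14, 16⟩, ⟨1, 2, 12, 13, 16⟩, ⟨1, 2, 13, 14, 16⟩]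
theorem hL3 : ∀ b ∈ L3, BoxH 3 1000 g b := by
  simp only [L3, List.forall_mem_cons, List.not_mem_nil, false_imp_iff, implies_true, and_true]
  exact ⟨⟨b48, rfl, h48⟩,
    ⟨b49, rfl, h49⟩,
    ⟨b50, rfl, h50⟩,
    ⟨b51, rfl, h51⟩,
    ⟨b52, rfl, h52⟩,
    ⟨b53, rfl, h53⟩,
    ⟨b54, rfl, h54⟩,
    ⟨b55, rfl, h55⟩,
    ⟨b56, rfl, h56⟩,
    ⟨b57, rfl, h57⟩,
    ⟨b58, rfl, h58⟩,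
    ⟨b59, rfl, h59⟩,
    ⟨b60, rfl, h60⟩,
    ⟨b61, rfl, h61⟩,
    ⟨b62, rfl, h62⟩,
    ⟨b63, rfl, h63⟩⟩
/-- boxes -/
def L4 : List Bn := [⟨0, 1, 13, 14, 16⟩, ⟨0, 1, 12, 13, 16⟩, ⟨3, 4, 14, 15, 16⟩, ⟨3, 4, 15, 16, 16⟩, ⟨14, 15, 10, 11, 16⟩, ⟨14, 15, 11, 12, 16⟩, ⟨15, 16, 10, 11, 16⟩, ⟨15, 16, 11, 12, 16⟩, ⟨4, 5, 7, 8, 32⟩, ⟨4, 5, 6, 7, 32⟩, ⟨5, 6, 6, 7, 32⟩, ⟨5, 6, 7, 8, 32⟩, ⟨2, 3, 1, 2, 32⟩, ⟨2, 3, 0, 1, 32⟩, ⟨3, 4, 0, 1, 32⟩, ⟨3, 4, 1, 2, 32⟩]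
theorem hL4 : ∀ b ∈ L4, BoxH 3 1000 g b := by
  simp only [L4, List.forall_mem_cons, List.not_mem_nil, false_imp_iff, implies_true, and_true]
  exact ⟨⟨b64, rfl, h64⟩,
    ⟨b65, rfl, h65⟩,
    ⟨b66, rfl, h66⟩,
    ⟨b67, rfl, h67⟩,
    ⟨b68, rfl, h68⟩,
    ⟨b69, rfl, h69⟩,
    ⟨b70, rfl, h70⟩,
    ⟨b71, rfl, h71⟩,
    ⟨b72, rfl, h72⟩,
    ⟨b73, rfl, h73⟩,
    ⟨b74, rfl, h74⟩,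
    ⟨b75, rfl, h75⟩,
    ⟨b76, rfl, h76⟩,
    ⟨b77, rfl, h77⟩,
    ⟨b78, rfl, h78⟩,
    ⟨b79, rfl, h79⟩⟩
/-- boxes -/
def L5 : List Bn := [⟨2, 3, 2, 3, 32⟩, ⟨2, 3, 3, 4, 32⟩, ⟨3, 4, 3, 4, 32⟩, ⟨3, 4, 2, 3, 32⟩, ⟨2, 3, 6, 7, 32⟩, ⟨2, 3, 7, 8, 32⟩, ⟨3, 4, 6, 7, 32⟩, ⟨3, 4, 7, 8, 32⟩, ⟨2, 3, 4, 5, 32⟩, ⟨2, 3, 5, 6, 32⟩, ⟨3, 4, 4, 5, 32⟩, ⟨3, 4, 5, 6, 32⟩, ⟨4, 5, 0, 1, 32⟩, ⟨4, 5, 1, 2, 32⟩, ⟨5, 6, 0, 1, 32⟩, ⟨5, 6, 1, 2, 32⟩]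
theorem hL5 : ∀ b ∈ L5, BoxH 3 1000 g b := by
  simp only [L5, List.forall_mem_cons, List.not_mem_nil, false_imp_iff, implies_true, and_true]
  exact ⟨⟨b80, rfl, h80⟩,
    ⟨b81, rfl, h81⟩,
    ⟨b82, rfl, h82⟩,
    ⟨b83, rfl, h83⟩,
    ⟨b84, rfl, h84⟩,
    ⟨b85, rfl, h85⟩,
    ⟨b86, rfl, h86⟩,
    ⟨b87, rfl, h87⟩,
    ⟨b88, rfl, h88⟩,
    ⟨b89, rfl, h89⟩,
    ⟨b90, rfl, h90⟩,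
    ⟨b91, rfl, h91⟩,
    ⟨b92, rfl, h92⟩,
    ⟨b93, rfl, h93⟩,
    ⟨b94, rfl, h94⟩,
    ⟨b95, rfl, h95⟩⟩
/-- boxes -/
def L6 : List Bn := [⟨4, 5, 2, 3, 32⟩, ⟨4, 5, 3, 4, 32⟩, ⟨5, 6, 2, 3, 32⟩, ⟨5, 6, 3, 4, 32⟩, ⟨2, 3, 8, 9, 32⟩, ⟨2, 3, 9, 10, 32⟩, ⟨3, 4, 8, 9, 32⟩, ⟨3, 4, 9, 10, 32⟩, ⟨2, 3, 11, 12, 32⟩, ⟨2, 3, 10, 11, 32⟩, ⟨3, 4, 10, 11, 32⟩, ⟨3, 4, 11, 12, 32⟩, ⟨4, 5, 12, 13, 32⟩, ⟨4, 5, 13, 14, 32⟩, ⟨4, 5, 14, 15, 32⟩, ⟨4, 5, 15, 16, 32⟩]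
theorem hL6 : ∀ b ∈ L6, BoxH 3 1000 g b := by
  simp only [L6, List.forall_mem_cons, List.not_mem_nil, false_imp_iff, implies_true, and_true]
  exact ⟨⟨b96, rfl, h96⟩,
    ⟨b97, rfl, h97⟩,
    ⟨b98, rfl, h98⟩,
    ⟨b99, rfl, h99⟩,
    ⟨b100, rfl, h100⟩,
    ⟨b101, rfl, h101⟩,
    ⟨b102, rfl, h102⟩,
    ⟨b103, rfl, h103⟩,
    ⟨b104, rfl, h104⟩,
    ⟨b105, rfl, h105⟩,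
    ⟨b106, rfl, h106⟩,
    ⟨b107, rfl, h107⟩,
    ⟨b108, rfl, h108⟩,
    ⟨b109, rfl, h109⟩,
    ⟨b110, rfl, h110⟩,
    ⟨b111, rfl, h111⟩⟩
/-- boxes -/
def L7 : List Bn := [⟨2, 3, 15, 16, 32⟩, ⟨2, 3, 14, 15, 32⟩, ⟨3, 4, 15, 16, 32⟩, ⟨3, 4, 14, 15, 32⟩, ⟨2, 3, 12, 13, 32⟩, ⟨2, 3, 13, 14, 32⟩, ⟨4, 5, 9, 10, 32⟩, ⟨3, 4, 12, 13, 32⟩, ⟨4, 5, 8, 9, 32⟩, ⟨3, 4, 13, 14, 32⟩, ⟨4, 5, 10, 11, 32⟩, ⟨4, 5, 11, 12, 32⟩, ⟨5, 6, 9, 10, 32⟩, ⟨5, 6, 8, 9, 32⟩, ⟨4, 5, 20, 21, 32⟩, ⟨4, 5, 21, 22, 32⟩]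
theorem hL7 : ∀ b ∈ L7, BoxH 3 1000 g b := by
  simp only [L7, List.forall_mem_cons, List.not_mem_nil, false_imp_iff, implies_true, and_true]
  exact ⟨⟨b112, rfl, h112⟩,
    ⟨b113, rfl, h113⟩,
    ⟨b114, rfl, h114⟩,
    ⟨b115, rfl, h115⟩,
    ⟨b116, rfl, h116⟩,
    ⟨b117, rfl, h117⟩,
    ⟨b118, rfl, h118⟩,
    ⟨b119, rfl, h119⟩,
    ⟨b120, rfl, h120⟩,
    ⟨b121, rfl, h121⟩,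
    ⟨b122, rfl, h122⟩,
    ⟨b123, rfl, h123⟩,
    ⟨b124, rfl, h124⟩,
    ⟨b125, rfl, h125⟩,
    ⟨b126, rfl, h126⟩,
    ⟨b127, rfl, h127⟩⟩
/-- boxes -/
def L8 : List Bn := [⟨5, 6, 10, 11, 32⟩, ⟨4, 5, 22, 23, 32⟩, ⟨4, 5, 23, 24, 32⟩, ⟨2, 3, 16, 17, 32⟩, ⟨2, 3, 17, 18, 32⟩, ⟨3, 4, 16, 17, 32⟩, ⟨3, 4, 17, 18, 32⟩, ⟨2, 3, 18, 19, 32⟩, ⟨2, 3, 19, 20, 32⟩, ⟨4, 5, 16, 17, 32⟩, ⟨3, 4, 18, 19, 32⟩, ⟨4, 5, 17, 18, 32⟩, ⟨3, 4, 19, 20, 32⟩, ⟨4, 5, 19, 20, 32⟩, ⟨4, 5, 18, 19, 32⟩, ⟨4, 5, 26, 27, 32⟩]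
theorem hL8 : ∀ b ∈ L8, BoxH 3 1000 g b := by
  simp only [L8, List.forall_mem_cons, List.not_mem_nil, false_imp_iff, implies_true, and_true]
  exact ⟨⟨b128, rfl, h128⟩,
    ⟨b129, rfl, h129⟩,
    ⟨b130, rfl, h130⟩,
    ⟨b131, rfl, h131⟩,
    ⟨b132, rfl, h132⟩,
    ⟨b133, rfl, h133⟩,
    ⟨b134, rfl, h134⟩,
    ⟨b135, rfl, h135⟩,
    ⟨b136, rfl, h136⟩,
    ⟨b137, rfl, h137⟩,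
    ⟨b138, rfl, h138⟩,
    ⟨b139, rfl, h139⟩,
    ⟨b140, rfl, h140⟩,
    ⟨b141, rfl, h141⟩,
    ⟨b142, rfl, h142⟩,
    ⟨b143, rfl, h143⟩⟩
/-- boxes -/
def L9 : List Bn := [⟨4, 5, 27, 28, 32⟩, ⟨4, 5, 24, 25, 32⟩, ⟨4, 5, 25, 26, 32⟩, ⟨5, 6, 27, 28, 32⟩, ⟨4, 5, 28, 29, 32⟩, ⟨4, 5, 29, 30, 32⟩, ⟨4, 5, 30, 31, 32⟩, ⟨5, 6, 28, 29, 32⟩, ⟨5, 6, 29, 30, 32⟩, ⟨4, 5, 31, 32, 32⟩, ⟨5, 6, 30, 31, 32⟩, ⟨5, 6, 31, 32, 32⟩, ⟨10, 11, 27, 28, 64⟩, ⟨10, 11, 26, 27, 64⟩, ⟨11, 12, 27, 28, 64⟩, ⟨11, 12, 26, 27, 64⟩]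
theorem hL9 : ∀ b ∈ L9, BoxH 3 1000 g b := by
  simp only [L9, List.forall_mem_cons, List.not_mem_nil, false_imp_iff, implies_true, and_true]
  exact ⟨⟨b144, rfl, h144⟩,
    ⟨b145, rfl, h145⟩,
    ⟨b146, rfl, h146⟩,
    ⟨b147, rfl, h147⟩,
    ⟨b148, rfl, h148⟩,
    ⟨b149, rfl, h149⟩,
    ⟨b150, rfl, h150⟩,
    ⟨b151, rfl, h151⟩,
    ⟨b152, rfl, h152⟩,
    ⟨b153, rfl, h153⟩,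
    ⟨b154, rfl, h154⟩,
    ⟨b155, rfl, h155⟩,
    ⟨b156, rfl, h156⟩,
    ⟨b157, rfl, h157⟩,
    ⟨b158, rfl, h158⟩,
    ⟨b159, rfl, h159⟩⟩
/-- boxes -/
def L10 : List Bn := [⟨10, 11, 25, 26, 64⟩, ⟨10, 11, 24, 25, 64⟩, ⟨10, 11, 28, 29, 64⟩, ⟨11, 12, 24, 25, 64⟩, ⟨11, 12, 25, 26, 64⟩, ⟨10, 11, 29, 30, 64⟩, ⟨11, 12, 28, 29, 64⟩, ⟨11, 12, 29, 30, 64⟩, ⟨10, 11, 30, 31, 64⟩, ⟨10, 11, 31, 32, 64⟩, ⟨11, 12, 30, 31, 64⟩, ⟨11, 12, 31, 32, 64⟩, ⟨10, 11, 22, 23, 64⟩, ⟨10, 11, 23, 24, 64⟩, ⟨11, 12, 22, 23, 64⟩, ⟨10, 11, 40, 41, 64⟩]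
theorem hL10 : ∀ b ∈ L10, BoxH 3 1000 g b := by
  simp only [L10, List.forall_mem_cons, List.not_mem_nil, false_imp_iff, implies_true, and_true]
  exact ⟨⟨b160, rfl, h160⟩,
    ⟨b161, rfl, h161⟩,
    ⟨b162, rfl, h162⟩,
    ⟨b163, rfl, h163⟩,
    ⟨b164, rfl, h164⟩,
    ⟨b165, rfl, h165⟩,
    ⟨b166, rfl, h166⟩,
    ⟨b167, rfl, h167⟩,
    ⟨b168, rfl, h168⟩,
    ⟨b169, rfl, h169⟩,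
    ⟨b170, rfl, h170⟩,
    ⟨b171, rfl, h171⟩,
    ⟨b172, rfl, h172⟩,
    ⟨b173, rfl, h173⟩,
    ⟨b174, rfl, h174⟩,
    ⟨b175, rfl, h175⟩⟩
/-- boxes -/
def L11 : List Bn := [⟨11, 12, 23, 24, 64⟩, ⟨10, 11, 41, 42, 64⟩, ⟨11, 12, 40, 41, 64⟩, ⟨11, 12, 41, 42, 64⟩, ⟨10, 11, 43, 44, 64⟩, ⟨11, 12, 42, 43, 64⟩, ⟨11, 12, 43, 44, 64⟩, ⟨11, 12, 44, 45, 64⟩, ⟨11, 12, 45, 46, 64⟩, ⟨11, 12, 46, 47, 64⟩, ⟨11, 12, 47, 48, 64⟩, ⟨11, 12, 32, 33, 64⟩, ⟨10, 11, 32, 33, 64⟩, ⟨11, 12, 33, 34, 64⟩, ⟨10, 11, 33, 34, 64⟩, ⟨11, 12, 34, 35, 64⟩]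
theorem hL11 : ∀ b ∈ L11, BoxH 3 1000 g b := by
  simp only [L11, List.forall_mem_cons, List.not_mem_nil, false_imp_iff, implies_true, and_true]
  exact ⟨⟨b176, rfl, h176⟩,
    ⟨b177, rfl, h177⟩,
    ⟨b178, rfl, h178⟩,
    ⟨b179, rfl, h179⟩,
    ⟨b180, rfl, h180⟩,
    ⟨b181, rfl, h181⟩,
    ⟨b182, rfl, h182⟩,
    ⟨b183, rfl, h183⟩,
    ⟨b184, rfl, h184⟩,
    ⟨b185, rfl, h185⟩,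
    ⟨b186, rfl, h186⟩,
    ⟨b187, rfl, h187⟩,
    ⟨b188, rfl, h188⟩,
    ⟨b189, rfl, h189⟩,
    ⟨b190, rfl, h190⟩,
    ⟨b191, rfl, h191⟩⟩
/-- boxes -/
def L12 : List Bn := [⟨11, 12, 35, 36, 64⟩, ⟨10, 11, 34, 35, 64⟩, ⟨10, 11, 35, 36, 64⟩, ⟨10, 11, 36, 37, 64⟩, ⟨11, 12, 37, 38, 64⟩, ⟨11, 12, 36, 37, 64⟩, ⟨10, 11, 37, 38, 64⟩, ⟨11, 12, 38, 39, 64⟩, ⟨11, 12, 39, 40, 64⟩, ⟨10, 11, 39, 40, 64⟩, ⟨10, 11, 38, 39, 64⟩, ⟨11, 12, 52, 53, 64⟩, ⟨11, 12, 53, 54, 64⟩, ⟨10, 11, 53, 54, 64⟩, ⟨11, 12, 48, 49, 64⟩, ⟨11, 12, 49, 50, 64⟩]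
theorem hL12 : ∀ b ∈ L12, BoxH 3 1000 g b := by
  simp only [L12, List.forall_mem_cons, List.not_mem_nil, false_imp_iff, implies_true, and_true]
  exact ⟨⟨b192, rfl, h192⟩,
    ⟨b193, rfl, h193⟩,
    ⟨b194, rfl, h194⟩,
    ⟨b195, rfl, h195⟩,
    ⟨b196, rfl, h196⟩,
    ⟨b197, rfl, h197⟩,
    ⟨b198, rfl, h198⟩,
    ⟨b199, rfl, h199⟩,
    ⟨b200, rfl, h200⟩,
    ⟨b201, rfl, h201⟩,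
    ⟨b202, rfl, h202⟩,
    ⟨b203, rfl, h203⟩,
    ⟨b204, rfl, h204⟩,
    ⟨b205, rfl, h205⟩,
    ⟨b206, rfl, h206⟩,
    ⟨b207, rfl, h207⟩⟩
/-- boxes -/
def L13 : List Bn := [⟨11, 12, 50, 51, 64⟩, ⟨11, 12, 51, 52, 64⟩, ⟨10, 11, 42, 43, 64⟩, ⟨10, 11, 52, 53, 64⟩, ⟨20, 21, 92, 93, 128⟩, ⟨20, 21, 93, 94, 128⟩, ⟨21, 22, 93, 94, 128⟩, ⟨21, 22, 92, 93, 128⟩, ⟨20, 21, 88, 89, 128⟩, ⟨20, 21, 89, 90, 128⟩, ⟨21, 22, 89, 90, 128⟩, ⟨21, 22, 88, 89, 128⟩, ⟨20, 21, 90, 91, 128⟩, ⟨20, 21, 91, 92, 128⟩, ⟨21, 22, 90, 91, 128⟩, ⟨21, 22, 91, 92, 128⟩]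
theorem hL13 : ∀ b ∈ L13, BoxH 3 1000 g b := by
  simp only [L13, List.forall_mem_cons, List.not_mem_nil, false_imp_iff, implies_true, and_true]
  exact ⟨⟨b208, rfl, h208⟩,
    ⟨b209, rfl, h209⟩,
    ⟨b210, rfl, h210⟩,
    ⟨b211, rfl, h211⟩,
    ⟨b212, rfl, h212⟩,
    ⟨b213, rfl, h213⟩,
    ⟨b214, rfl, h214⟩,
    ⟨b215, rfl, h215⟩,
    ⟨b216, rfl, h216⟩,
    ⟨b217, rfl, h217⟩,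
    ⟨b218, rfl, h218⟩,
    ⟨b219, rfl, h219⟩,
    ⟨b220, rfl, h220⟩,
    ⟨b221, rfl, h221⟩,
    ⟨b222, rfl, h222⟩,
    ⟨b223, rfl, h223⟩⟩
/-- boxes -/
def L14 : List Bn := [⟨20, 21, 94, 95, 128⟩, ⟨20, 21, 95, 96, 128⟩, ⟨21, 22, 94, 95, 128⟩, ⟨20, 21, 98, 99, 128⟩, ⟨21, 22, 95, 96, 128⟩, ⟨20, 21, 99, 100, 128⟩, ⟨21, 22, 99, 100, 128⟩, ⟨20, 21, 96, 97, 128⟩, ⟨21, 22, 98, 99, 128⟩, ⟨20, 21, 97, 98, 128⟩, ⟨21, 22, 96, 97, 128⟩, ⟨21, 22, 97, 98, 128⟩, ⟨20, 21, 100, 101, 128⟩, ⟨20, 21, 101, 102, 128⟩, ⟨21, 22, 100, 101, 128⟩, ⟨21, 22, 101, 102, 128⟩]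
theorem hL14 : ∀ b ∈ L14, BoxH 3 1000 g b := by
  simp only [L14, List.forall_mem_cons, List.not_mem_nil, false_imp_iff, implies_true, and_true]
  exact ⟨⟨b224, rfl, h224⟩,
    ⟨b225, rfl, h225⟩,
    ⟨b226, rfl, h226⟩,
    ⟨b227, rfl, h227⟩,
    ⟨b228, rfl, h228⟩,
    ⟨b229, rfl, h229⟩,
    ⟨b230, rfl, h230⟩,
    ⟨b231, rfl, h231⟩,
    ⟨b232, rfl, h232⟩,
    ⟨b233, rfl, h233⟩,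
    ⟨b234, rfl, h234⟩,
    ⟨b235, rfl, h235⟩,
    ⟨b236, rfl, h236⟩,
    ⟨b237, rfl, h237⟩,
    ⟨b238, rfl, h238⟩,
    ⟨b239, rfl, h239⟩⟩
/-- boxes -/
def L15 : List Bn := [⟨20, 21, 102, 103, 128⟩, ⟨21, 22, 102, 103, 128⟩, ⟨21, 22, 103, 104, 128⟩, ⟨20, 21, 103, 104, 128⟩]
theorem hL15 : ∀ b ∈ L15, BoxH 3 1000 g b := by
  simp only [L15, List.forall_mem_cons, List.not_mem_nil, false_imp_iff, implies_true, and_true]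
  exact ⟨⟨b240, rfl, h240⟩,
    ⟨b241, rfl, h241⟩,
    ⟨b242, rfl, h242⟩,
    ⟨b243, rfl, h243⟩⟩
/-- intervals -/
def LS : List Bn := [⟨0, 1, 0, 0, 4⟩, ⟨1, 2, 0, 0, 4⟩, ⟨2, 3, 0, 0, 4⟩, ⟨3, 4, 0, 0, 4⟩]
theorem hLS : ∀ b ∈ LS, SideH 3 1000 g F b := by
  simp only [LS, List.forall_mem_cons, List.not_mem_nil, false_imp_iff, implies_true, and_true]
  exact ⟨⟨s0, 5, rfl, t0⟩,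
    ⟨s1, 5, rfl, t1⟩,
    ⟨s2, 5, rfl, t2⟩,
    ⟨s3, 5, rfl, t3⟩⟩
theorem chS : chn 0 1 LS = true := by decide +kernel
/-- all boxes -/
def L : List Bn := L0 ++ L1 ++ L2 ++ L3 ++ L4 ++ L5 ++ L6 ++ L7 ++ L8 ++ L9 ++ L10 ++ L11 ++ L12 ++ L13 ++ L14 ++ L15
theorem hL : ∀ b ∈ L, BoxH 3 1000 g b := by
  intro b hb
  simp only [L, List.mem_append] at hb
  rcases hb with (((((((((((((((h | h) | h) | h) | h) | h) | h) | h) | h) | h) | h) | h) | h) | h) | h) | h)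
  · exact hL0 b h
  · exact hL1 b h
  · exact hL2 b h
  · exact hL3 b h
  · exact hL4 b h
  · exact hL5 b h
  · exact hL6 b h
  · exact hL7 b h
  · exact hL8 b h
  · exact hL9 b h
  · exact hL10 b h
  · exact hL11 b h
  · exact hL12 b h
  · exact hL13 b h
  · exact hL14 b h
  · exact hL15 b h
theorem hq : ∀ b ∈ L, 0 < b.q := by
  have h : (L.all fun b => Nat.ble 1 b.q) = true := by decide +kernel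
  intro b hb
  exact Nat.le_of_ble_eq_true (List.all_eq_true.mp h b hb)
theorem hc : covQ 128 L 16 0 128 0 128 = true := by decide +kernel
/-- the certificate of the triangle -/
theorem cert {T : E → ℝ} {β : ℝ} (h : TrHyp T β) (hβ : inR (rgOf 0 1 3 1000) β) :
    sF0 (FFd F) T + sF1 (FFd F) T + sF2 (FFd F) T ≤ CN T :=
  tri_certH (by norm_num) hg hE 128 16 (by norm_num) L hq hc hL F (by norm_num [F]) ev tx ty LS chS hLS h hβ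
end Pool.Agent.MTC.A
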